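import Pool.Agent.Lib_helper74.KY.F.Main
import Pool.Agent.Lib_helper57.YF.Classes

/-!
# Truth-table completeness: weaker forms of completeness (MP_675993_lc)

Languages that are complete for `NP` under many-one reductions, under truth-table reductions with a
bounded number of queries, with at most `|x| ^ β + b` queries, under positive truth-table
reductions, or under truth-table reductions with few alternations, are complete under truth-table
reductions.  So the theorem for truth-table completeness contains the theorems for all these kinds.
-/

set_option autoImplicit false
set_option linter.unusedSectionVars false

namespace Pool.Agent.CKP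

open Pool.Agent.CK

variable {O : Lang}

theorem ttComplete_of_fewAlt {C : Lang} (h : FewAltComplete O C) : TTComplete O C :=
  ⟨h.1, fun A hA => tt_of_fewAlt (h.2 A hA)⟩

theorem ttComplete_of_m {C : Lang} (h : ManyOneComplete O C) : TTComplete O C :=
  ⟨h.1, fun A hA => tt_of_m (h.2 A hA)⟩

theorem ttComplete_of_btt {C : Lang} (h : BTTComplete O C) : TTComplete O C :=
  ttComplete_of_fewAlt (FewAltComplete.of_btt h)

end Pool.Agent.CKP
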